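import Pool.Agent.H4.SE.Targets

/-! Trivial bounds (module RU of the board sae_modules, MP_45b854_al). -/

set_option autoImplicit false

open Finset Equiv
open scoped Classical

namespace Pool.Agent.H51.SE4

open Pool.Agent.H4.SE

lemma pp_stab {r : ℕ} {β : Type} (σ : Fin r → Perm β) (T : List (Fin r × Bool)) :
    ∀ n : ℕ, pp σ T (T.length + n) = pp σ T T.length
  | 0 => rfl
  | n + 1 => by
    have h : T[T.length + n]? = none := List.getElem?_eq_none (by omega)
    show (match T[T.length + n]? with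
      | some x => Pool.Agent.H11.SAE.lp σ x
      | none => 1) * pp σ T (T.length + n) = _
    rw [h, pp_stab σ T n, one_mul]

lemma pp_min {r : ℕ} {β : Type} (σ : Fin r → Perm β) (T : List (Fin r × Bool)) (l : ℕ) :
    pp σ T l = pp σ T (min l T.length) := by
  rcases le_total l T.length with h | h
  · rw [min_eq_left h]
  · rw [min_eq_right h]
    obtain ⟨n, rfl⟩ := Nat.exists_eq_add_of_le h
    exact pp_stab σ T n

lemma rho_le {r d : ℕ} (T : Fin d → List (Fin r × Bool)) (hRB : T_RB) (hRS : T_RS) (k : ℕ)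
    (β : Type) [Fintype β] [DecidableEq β] [Nonempty β] (A : Finset (Option (Fin d × ℕ))) :
    0 ≤ rho T k β A ∧ rho T k β A ≤ A.card * Real.log (Fintype.card β) := by
  obtain ⟨h0, hm, hs⟩ := hRB r d T k β
  have hp : ∀ A, 0 ≤ rho T k β A := fun A => by
    have := hm ∅ A (Finset.empty_subset _)
    rw [h0] at this
    exact this
  refine ⟨hp A, ?_⟩
  induction A using Finset.induction_on with
  | empty => rw [h0]; simp
  | insert a A ha ih =>
    have h1 := hs {a} A
    have h2 := hRS r d T k β a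
    have h3 := hp ({a} ∩ A)
    rw [Finset.card_insert_of_notMem ha]
    have h4 : insert a A = {a} ∪ A := rfl
    rw [h4]
    push_cast
    linarith

theorem pf_RU (hEM : T_EM) (hES : T_ES) (hEP : T_EP) (hEC : T_EC) (hRB : T_RB) (hRS : T_RS) :
    T_RU := by
  intro r d T
  refine ⟨(∑ i, ((Ei T i).card : ℝ)) + ∑ j, (((T j).length : ℝ) + 1), by positivity, ?_⟩
  intro k β _ _ _
  have hL : 0 ≤ Real.log (Fintype.card β) := Real.log_natCast_nonneg _
  have hc : 0 ≤ ∑ j, (((T j).length : ℝ) + 1) := by positivity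
  have hc1 : 0 ≤ ∑ i, ((Ei T i).card : ℝ) := by positivity
  refine ⟨?_, ?_, ?_, ?_⟩
  · exact Finset.sum_nonneg fun i _ => (rho_le T hRB hRS k β _).1
  · have h1 : SS T k β ≤ ∑ i, ((Ei T i).card : ℝ) * Real.log (Fintype.card β) := by
      refine Finset.sum_le_sum fun i _ => ((rho_le T hRB hRS k β _).2).trans ?_
      refine mul_le_mul_of_nonneg_right ?_ hL
      exact_mod_cast Finset.card_image_le
    rw [← Finset.sum_mul] at h1
    nlinarith [mul_nonneg hc hL]
  · exact (hEC (Om r k β) _ Unit (fun ω => WQ T ω) (fun _ => ())).1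
  · let g : Om r k β → (Fin k × (Σ j : Fin d, Fin ((T j).length + 1)) → β) :=
      fun ω q => (pp ω.1 (T q.2.1) q.2.2)⁻¹ (ω.2 q.1)
    have h1 : AA T k β ≤ ent (fun ω : Om r k β => (W T ω.1, g ω)) := by
      refine hEM _ _ _ _ _ fun x y h => ?_
      obtain ⟨h2, h3⟩ := Prod.mk.inj h
      refine Prod.ext h2 ?_
      funext m j l
      have h4 := congrFun h3 (m, ⟨j, ⟨min l (T j).length, by omega⟩⟩)
      show (pp x.1 (T j) l)⁻¹ (x.2 m) = (pp y.1 (T j) l)⁻¹ (y.2 m)
      rw [pp_min x.1, pp_min y.1]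
      exact h4
    have h2 := (hEC (Om r k β) _ (Fin k × (Σ j : Fin d, Fin ((T j).length + 1)) → β)
      (fun ω => W T ω.1) g).2
    have h3 : ent (fun ω : Om r k β => W T ω.1) = ent (fun σ : Fin r → Perm β => W T σ) := by
      refine hEP (Fin r → Perm β) (Om r k β) _ Prod.fst (Fintype.card (Fin k → β))
        Fintype.card_pos ?_ _
      intro x
      rw [← Finset.card_univ (α := Fin k → β)]
      refine (Finset.card_bij (fun c _ => (x, c)) ?_ ?_ ?_).symm
      · intro c _
        simp
      · intro a _ b _ h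
        exact (Prod.mk.inj h).2
      · rintro ⟨a, b⟩ h
        simp only [Finset.mem_filter, Finset.mem_univ, true_and] at h
        exact ⟨b, Finset.mem_univ _, by rw [h]⟩
    have h4 : Real.log (Fintype.card (Fin k × (Σ j : Fin d, Fin ((T j).length + 1)) → β)) =
        (∑ j, (((T j).length : ℝ) + 1)) * k * Real.log (Fintype.card β) := by
      rw [Fintype.card_fun, Fintype.card_prod, Fintype.card_sigma, Nat.cast_pow, Real.log_pow]
      simp only [Fintype.card_fin]
      push_cast
      ring
    rw [h3] at h2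
    rw [h4] at h2
    have h5 : 0 ≤ (∑ i, ((Ei T i).card : ℝ)) * k * Real.log (Fintype.card β) :=
      mul_nonneg (mul_nonneg hc1 (Nat.cast_nonneg k)) hL
    nlinarith [h2.1, h2.2]

end Pool.Agent.H51.SE4
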